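import Pool.Agent.H898.CenterRev

set_option autoImplicit false

open MvPolynomial Pool.Agent.H898.Center

namespace Pool.Agent.Results.MP_05b4bd_ag.CenterLocusComponents

/-- **Main result.**
(1) Let `d ≥ 2` and let `M` be a Zariski closed set containing `L(1, d)` (for instance the center
locus `M(d)`).  No family `A_i`, `i ≤ d`, and not `B_1` gives an irreducible component of `M`.
(2) Let `d ≥ 7` and let `M` be a Zariski closed set containing `L(d+1)` and `L(1, d)` (for
instance `M(d)`).  A generic `f` of degree at most `d` satisfies the conditions of the problem;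
for it the closure of `L(d_1, …, d_s)` contains `F(df)` if and only if some `d_j` is at least `d`;
among the closures of the logarithmic and exponential families, of the `A_i` and of `B_1`, only
those of `L(d+1)` and `L(1, d)` are components of `M` through `F(df)`; and every component of `M`
through `F(df)` contains all `F(dg)`, `deg g ≤ d`.
(3) Let `d ≥ 3`.  There is an `f` satisfying the conditions of the problem such that `F(df)` lies
in the closures of `L(2, d-1)` and of `L(1, 1, d-1)`.
(4) Let `d ≥ 3`.  The center locus `M(d)` has an irreducible component `Z` which contains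
`F(d(A(x) + y²))` for all `A` with `2 ≤ deg A ≤ d` and which is not contained in the closure of
any `L(d_1, …, d_s)`, `d_1 + ⋯ + d_s ≤ d + 1`; in particular it is the closure of no logarithmic
or exponential family, of no `A_i` and not of `B_1`.  The polynomial `x^d + x + y²` satisfies the
conditions of the problem. -/
theorem result (d : ℕ) (hd : 2 ≤ d) :
    (∀ M : Set (Fol d), IsAlgebraic M → logFamily d ![1, d] ⊆ M →
      (∀ i ≤ d, ¬ IsComponent M (zariskiClosure (familyA d i))) ∧
      ¬ IsComponent M (zariskiClosure (familyB d))) ∧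
    (7 ≤ d → ∀ M : Set (Fol d), IsAlgebraic M → logFamily d ![d + 1] ⊆ M →
      logFamily d ![1, d] ⊆ M → Generic d (fun f => AsInProblem d f ∧
        (∀ (s : ℕ) (D : Fin s → ℕ), (∀ j, 1 ≤ D j) → ∑ j, D j = d + 1 →
          (Passes (zariskiClosure (logFamily d D)) f ↔ ∃ j, d ≤ D j)) ∧
        (∀ Z, Candidate d Z → IsComponent M Z → Passes Z f →
          Z = zariskiClosure (logFamily d ![d + 1]) ∨ Z = zariskiClosure (logFamily d ![1, d])) ∧
        (∀ Z, IsComponent M Z → Passes Z f →
          ∀ g : Poly, g.totalDegree ≤ d → g.totalDegree ≠ 0 → Passes Z g))) ∧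
    (3 ≤ d → ∃ f : Poly, AsInProblem d f ∧
      Passes (zariskiClosure (logFamily d ![2, d - 1])) f ∧
      Passes (zariskiClosure (logFamily d ![1, 1, d - 1])) f) ∧
    (3 ≤ d → (∃ Z, IsComponent (centerLocus d) Z ∧ ¬ Candidate d Z ∧
        (∀ (s : ℕ) (D : Fin s → ℕ), ∑ j, D j ≤ d + 1 → ¬ Z ⊆ zariskiClosure (logFamily d D)) ∧
        ∀ A : Polynomial ℂ, 2 ≤ A.natDegree → A.natDegree ≤ d → Passes Z (quadPoly A)) ∧
      AsInProblem d (quadPoly (Polynomial.X ^ d + Polynomial.X))) := by
  refine ⟨fun M hM h => not_component_AB d hd M hM h, ?_, fun h3 => exists_special' d h3, ?_⟩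
  · intro h7 M hM h1 h2
    exact (((gen_iff d h7).and (gen_classification d h7 M hM h1 h2)).and
      (gen_components M hM)).generic.imp fun Φ hΦ => ⟨hΦ.1, fun f hf hne =>
        have h := hΦ.2 f hf hne
        ⟨h.1.1.1, h.1.1.2, h.1.2, h.2⟩⟩
  · intro h3
    obtain ⟨Z, hZ, hlog, hpass⟩ := exists_new_component d h3
    refine ⟨⟨Z, hZ, fun hc => ?_, hlog, hpass⟩, asInProblem_example d h3⟩
    obtain ⟨s, D, hsum, hsub⟩ := hc.subset
    exact hlog s D hsum hsub

end Pool.Agent.Results.MP_05b4bd_ag.CenterLocusComponents
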