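import Mathlib

set_option autoImplicit false

open MvPolynomial

namespace Pool.Agent.Results.MP_05b4bd_ag.ExponentialFamilies

/-! ## Foliations of the plane given by polynomial 1-forms -/

/-- Polynomials in the two complex variables `x = X 0` and `y = X 1`. -/
abbrev Poly : Type := MvPolynomial (Fin 2) ℂ

/-- A polynomial 1-form `A dx + B dy` on `ℂ²`, stored as the pair `(A, B)`. -/
abbrev Form : Type := Poly × Poly

/-- The differential `df = f_x dx + f_y dy`. -/
noncomputable def diff (f : Poly) : Form := (pderiv 0 f, pderiv 1 f)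

/-- The space of polynomial 1-forms `A dx + B dy` with `deg A, deg B ≤ d`. -/
noncomputable def forms (d : ℕ) : Submodule ℂ Form :=
  (restrictTotalDegree (Fin 2) ℂ d).prod (restrictTotalDegree (Fin 2) ℂ d)

/-- The projectivization of `forms d`, i.e. the compactified space of foliations of
degree `d`. -/
abbrev Fol (d : ℕ) : Type := Projectivization ℂ (forms d)

/-! ## The Zariski topology -/

/-- The coordinates of the 1-form `A dx + B dy`: the coordinate `(0, m)` is the coefficient of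
the monomial `m` in `A` and the coordinate `(1, m)` is the coefficient of `m` in `B`. -/
noncomputable def coord (ω : Form) : Fin 2 × (Fin 2 →₀ ℕ) → ℂ :=
  fun k => if k.1 = 0 then coeff k.2 ω.1 else coeff k.2 ω.2

/-- Polynomials in the coordinates of a 1-form. -/
abbrev PolyFun : Type := MvPolynomial (Fin 2 × (Fin 2 →₀ ℕ)) ℂ

/-- The set of points of the projectivization at which all members of `S` vanish. -/
def zeroLocus (d : ℕ) (S : Set PolyFun) : Set (Fol d) :=
  {x | ∀ Φ ∈ S, eval (coord (x.rep : Form)) Φ = 0}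

/-- Zariski closed subsets of the projectivization: common zero sets of families of
homogeneous polynomials in the coordinates. -/
def IsAlgebraic {d : ℕ} (Z : Set (Fol d)) : Prop :=
  ∃ S : Set PolyFun, (∀ Φ ∈ S, ∃ n : ℕ, Φ.IsHomogeneous n) ∧ Z = zeroLocus d S

/-- The Zariski closure. -/
def zariskiClosure {d : ℕ} (Z : Set (Fol d)) : Set (Fol d) :=
  ⋂₀ {W | IsAlgebraic W ∧ Z ⊆ W}

/-- Irreducible Zariski closed sets. -/
def IsIrreducibleAlgebraic {d : ℕ} (Z : Set (Fol d)) : Prop :=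
  IsAlgebraic Z ∧ Z.Nonempty ∧
    ∀ Z₁ Z₂ : Set (Fol d), IsAlgebraic Z₁ → IsAlgebraic Z₂ → Z ⊆ Z₁ ∪ Z₂ → Z ⊆ Z₁ ∨ Z ⊆ Z₂

/-- `Z` is an irreducible component of `M`: a maximal irreducible Zariski closed set
contained in `M`. -/
def IsComponent {d : ℕ} (M Z : Set (Fol d)) : Prop :=
  Z ⊆ M ∧ IsIrreducibleAlgebraic Z ∧
    ∀ Z' : Set (Fol d), IsIrreducibleAlgebraic Z' → Z ⊆ Z' → Z' ⊆ M → Z' = Z

/-! ## The families -/

/-- The form `f₁ ⋯ f_s ∑ λ_j df_j / f_j = ∑ λ_j (∏_{k ≠ j} f_k) df_j`. -/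
noncomputable def logForm {s : ℕ} (f : Fin s → Poly) (lam : Fin s → ℂ) : Form :=
  ∑ j, lam j • ((∏ k ∈ Finset.univ.erase j, f k) • diff (f j))

/-- The logarithmic family `L(d₁, …, d_s)` inside the projectivization of `forms d`: all
foliations given by a nonzero form `f₁ ⋯ f_s ∑ λ_j df_j / f_j` with `deg f_j ≤ d_j`. -/
def logFamily (d : ℕ) {s : ℕ} (D : Fin s → ℕ) : Set (Fol d) :=
  {x | ∃ (f : Fin s → Poly) (lam : Fin s → ℂ), (∀ j, (f j).totalDegree ≤ D j) ∧
    ∃ (ω : forms d) (h : ω ≠ 0), (ω : Form) = logForm f lam ∧ x = Projectivization.mk ℂ ω h}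

/-- The polynomial `a + b x + c y`. -/
noncomputable def affine (a b c : ℂ) : Poly := C a + C b * X 0 + C c * X 1

/-- The family `A_i`: all foliations `dp/p + d(q/p^i)`, that is
`p^{i+1} (dp/p + d(q/p^i)) = p^i dp + p dq - i q dp`, with `deg p = 1` and `deg q = d`. -/
def familyA (d i : ℕ) : Set (Fol d) :=
  {x | ∃ (a b c : ℂ) (q : Poly), (b ≠ 0 ∨ c ≠ 0) ∧ q.totalDegree = d ∧
    ∃ (ω : forms d) (h : ω ≠ 0),
      (ω : Form) = (affine a b c) ^ i • diff (affine a b c) + (affine a b c) • diff q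
        - ((i : ℂ) • q) • diff (affine a b c) ∧
      x = Projectivization.mk ℂ ω h}

/-- The family `B_1`: all foliations `dq/q + dp`, that is `dq + q dp`, with `deg p = 1` and
`deg q = d`. -/
def familyB (d : ℕ) : Set (Fol d) :=
  {x | ∃ (a b c : ℂ) (q : Poly), (b ≠ 0 ∨ c ≠ 0) ∧ q.totalDegree = d ∧
    ∃ (ω : forms d) (h : ω ≠ 0), (ω : Form) = diff q + q • diff (affine a b c) ∧
      x = Projectivization.mk ℂ ω h}

/-- The form with first integral `f₁^{λ₁} ⋯ f_s^{λ_s} exp(g / (f₁^{n₁} ⋯ f_s^{n_s}))`, namely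
`F f₁ ⋯ f_s (∑ λ_j df_j / f_j + d(g / F))` with `F = f₁^{n₁} ⋯ f_s^{n_s}`, written without
denominators. -/
noncomputable def expForm {s : ℕ} (f : Fin s → Poly) (lam : Fin s → ℂ) (n : Fin s → ℕ)
    (g : Poly) : Form :=
  (∏ j, f j ^ n j) • logForm f lam + (∏ j, f j) • diff g
    - g • logForm f (fun j => (n j : ℂ))

/-- The exponential family with degree bounds `d₁, …, d_s; e`: all foliations with a first
integral `f₁^{λ₁} ⋯ f_s^{λ_s} exp(g / F)`, `F = f₁^{n₁} ⋯ f_s^{n_s}`, with `deg f_j ≤ d_j`,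
`deg g ≤ e` and `deg F ≤ e`. -/
def expFamily (d : ℕ) {s : ℕ} (D : Fin s → ℕ) (e : ℕ) : Set (Fol d) :=
  {x | ∃ (f : Fin s → Poly) (lam : Fin s → ℂ) (n : Fin s → ℕ) (g : Poly),
    (∀ j, (f j).totalDegree ≤ D j) ∧ g.totalDegree ≤ e ∧ (∏ j, f j ^ n j).totalDegree ≤ e ∧
    ∃ (ω : forms d) (h : ω ≠ 0), (ω : Form) = expForm f lam n g ∧
      x = Projectivization.mk ℂ ω h}

/-! ## Proofs -/


theorem totalDegree_pderiv_le (i : Fin 2) (f : Poly) :
    (pderiv i f).totalDegree ≤ f.totalDegree - 1 := by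
  refine Finset.sup_le fun m hm => ?_
  rw [mem_support_iff, coeff_pderiv] at hm
  have h1 : coeff (m + Finsupp.single i 1) f ≠ 0 := fun h0 => hm (by rw [h0]; simp)
  have h2 := le_totalDegree (mem_support_iff.mpr h1)
  have h3 : ((m + Finsupp.single i 1).sum fun _ e => e) = (m.sum fun _ e => e) + 1 := by
    rw [Finsupp.sum_add_index' (fun _ => rfl) (fun _ _ _ => rfl)]
    simp
  omega

theorem pderiv_eq_zero_of_totalDegree_zero (i : Fin 2) (f : Poly) (h : f.totalDegree = 0) :
    pderiv i f = 0 := by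
  rw [totalDegree_eq_zero_iff_eq_C] at h
  rw [h, pderiv_C]

theorem pderiv_comm (f : Poly) : pderiv 0 (pderiv 1 f) = pderiv 1 (pderiv 0 f) := by
  ext m
  simp only [coeff_pderiv]
  have : m + Finsupp.single 0 1 + Finsupp.single 1 1 = m + Finsupp.single 1 1 + Finsupp.single (0 : Fin 2) 1 := by
    abel
  rw [this]
  simp
  ring

theorem coord_add_smul (ω η : Form) (t : ℂ) (k : Fin 2 × (Fin 2 →₀ ℕ)) :
    coord (ω + t • η) k = coord ω k + t * coord η k := by
  unfold coord
  split_ifs <;> simp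

theorem coord_smul (ω : Form) (t : ℂ) : coord (t • ω) = fun k => t * coord ω k := by
  funext k
  unfold coord
  split_ifs <;> simp

theorem eval_smul_of_isHomogeneous {Φ : PolyFun} {n : ℕ} (hΦ : Φ.IsHomogeneous n)
    (v : Fin 2 × (Fin 2 →₀ ℕ) → ℂ) (t : ℂ) :
    eval (fun k => t * v k) Φ = t ^ n * eval v Φ := by
  rw [eval_eq, eval_eq, Finset.mul_sum]
  refine Finset.sum_congr rfl fun m hm => ?_
  have hdeg : m.degree = n := by
    by_contra hne
    exact (mem_support_iff.mp hm) (hΦ.coeff_eq_zero hne)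
  have : ∏ k ∈ m.support, (t * v k) ^ m k = t ^ n * ∏ k ∈ m.support, v k ^ m k := by
    simp only [mul_pow]
    rw [Finset.prod_mul_distrib, Finset.prod_pow_eq_pow_sum]
    congr 2
  rw [this]; ring

/-- the line argument -/
theorem eval_eq_zero_of_line (Φ : PolyFun) (ω η : Form) (s : Set ℂ) (hs : s.Finite)
    (h : ∀ t : ℂ, t ∉ s → eval (coord (ω + t • η)) Φ = 0) : eval (coord ω) Φ = 0 := by
  let P : Polynomial ℂ :=
    aeval (fun k => Polynomial.C (coord ω k) + Polynomial.X * Polynomial.C (coord η k)) Φ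
  have hP : ∀ t : ℂ, P.eval t = eval (coord (ω + t • η)) Φ := by
    intro t
    have h1 : P.eval t = (Polynomial.evalRingHom t).comp
        (aeval (fun k => Polynomial.C (coord ω k) + Polynomial.X * Polynomial.C (coord η k)) :
          PolyFun →ₐ[ℂ] Polynomial ℂ).toRingHom Φ := rfl
    rw [h1]
    have h2 : (Polynomial.evalRingHom t).comp
        (aeval (fun k => Polynomial.C (coord ω k) + Polynomial.X * Polynomial.C (coord η k)) :
          PolyFun →ₐ[ℂ] Polynomial ℂ).toRingHom = eval (coord (ω + t • η)) := by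
      apply ringHom_ext
      · intro r; simp
      · intro k
        simp [coord_add_smul]
        ring
    rw [h2]
  have hzero : P = 0 := by
    apply Polynomial.eq_zero_of_infinite_isRoot
    refine Set.Infinite.mono ?_ (hs.infinite_compl)
    intro t ht
    show P.eval t = 0
    rw [hP t]; exact h t ht
  have := hP 0
  rw [hzero] at this
  simpa using this.symm

theorem mk_mem_zeroLocus {d : ℕ} (S : Set PolyFun) (hS : ∀ Φ ∈ S, ∃ n : ℕ, Φ.IsHomogeneous n)
    (ω : forms d) (h : ω ≠ 0) :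
    Projectivization.mk ℂ ω h ∈ zeroLocus d S ↔ ∀ Φ ∈ S, eval (coord (ω : Form)) Φ = 0 := by
  obtain ⟨a, ha⟩ := Projectivization.exists_smul_eq_mk_rep ℂ ω h
  have hrep : (((Projectivization.mk ℂ ω h).rep : forms d) : Form) = (a : ℂ) • (ω : Form) := by
    rw [← ha]; rfl
  constructor
  · intro hx Φ hΦ
    obtain ⟨n, hn⟩ := hS Φ hΦ
    have := hx Φ hΦ
    rw [hrep, coord_smul, eval_smul_of_isHomogeneous hn] at this
    rcases mul_eq_zero.mp this with h0 | h0
    · exact absurd h0 (pow_ne_zero n a.ne_zero)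
    · exact h0
  · intro hx Φ hΦ
    obtain ⟨n, hn⟩ := hS Φ hΦ
    rw [hrep, coord_smul, eval_smul_of_isHomogeneous hn, hx Φ hΦ, mul_zero]


theorem subset_zariskiClosure {d : ℕ} (Z : Set (Fol d)) : Z ⊆ zariskiClosure Z :=
  fun _ hx _ hW => hW.2 hx

theorem zariskiClosure_subset {d : ℕ} {Z W : Set (Fol d)} (hW : IsAlgebraic W) (h : Z ⊆ W) :
    zariskiClosure Z ⊆ W := fun _ hx => hx W ⟨hW, h⟩

theorem isAlgebraic_zariskiClosure {d : ℕ} (Z : Set (Fol d)) :
    IsAlgebraic (zariskiClosure Z) := by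
  refine ⟨{Φ | (∃ n : ℕ, Φ.IsHomogeneous n) ∧ ∀ x ∈ Z, eval (coord (x.rep : Form)) Φ = 0},
    fun Φ hΦ => hΦ.1, ?_⟩
  apply Set.Subset.antisymm
  · intro x hx Φ hΦ
    have : x ∈ zeroLocus d {Φ} := hx (zeroLocus d {Φ})
      ⟨⟨{Φ}, by intro Ψ hΨ; rw [Set.mem_singleton_iff.mp hΨ]; exact hΦ.1, rfl⟩, by
        intro y hy Ψ hΨ
        rw [Set.mem_singleton_iff.mp hΨ]
        exact hΦ.2 y hy⟩
    exact this Φ rfl
  · rintro x hx W ⟨⟨S, hS, rfl⟩, hZ⟩
    intro Φ hΦ
    exact hx Φ ⟨hS Φ hΦ, fun y hy => hZ hy Φ hΦ⟩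

/-- A line argument for points of the projectivization. -/
theorem mem_zariskiClosure_of_line {d : ℕ} (Z : Set (Fol d)) (ω η : forms d) (h : ω ≠ 0)
    (hl : ∀ t : ℂ, t ≠ 0 → ∀ ht : ω + t • η ≠ 0, Projectivization.mk ℂ (ω + t • η) ht ∈ Z) :
    Projectivization.mk ℂ ω h ∈ zariskiClosure Z := by
  rintro W ⟨⟨S, hS, rfl⟩, hZ⟩
  rw [mk_mem_zeroLocus S hS]
  intro Φ hΦ
  refine eval_eq_zero_of_line Φ ω η ({0} ∪ {t : ℂ | ω + t • η = 0}) ?_ ?_
  · refine (Set.finite_singleton 0).union ?_
    apply Set.Subsingleton.finite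
    intro t ht u hu
    by_contra htu
    have ht' : ω + t • η = 0 := ht
    have hu' : ω + u • η = 0 := hu
    have h1 : (t - u) • η = 0 := by
      have e : (t - u) • η = t • η - u • η := sub_smul t u η
      have e2 : t • η - u • η = (ω + t • η) - (ω + u • η) := by abel
      rw [e, e2, ht', hu', sub_zero]
    rcases smul_eq_zero.mp h1 with h2 | h2
    · exact htu (sub_eq_zero.mp h2)
    · apply h
      rw [h2, smul_zero, add_zero] at ht'
      exact ht'
  · intro t ht
    have ht1 : t ≠ 0 := fun h0 => ht (Or.inl h0)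
    have ht2 : ω + t • η ≠ 0 := fun h0 => ht (Or.inr h0)
    have h3 := hZ (hl t ht1 ht2)
    rw [mk_mem_zeroLocus S hS] at h3
    exact h3 Φ hΦ

theorem diff_mul (f g : Poly) : diff (f * g) = f • diff g + g • diff f := by
  unfold diff
  rw [Derivation.leibniz, Derivation.leibniz]
  simp

theorem diff_add (f g : Poly) : diff (f + g) = diff f + diff g := by
  unfold diff; simp

theorem diff_smul (t : ℂ) (g : Poly) : diff (t • g) = t • diff g := by
  unfold diff; simp

theorem diff_one : diff 1 = 0 := by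
  unfold diff; simp

theorem deriv_pow_aux (δ : Derivation ℂ Poly Poly) (f : Poly) (n : ℕ) :
    f * δ (f ^ n) = (n : Poly) * (f ^ n * δ f) := by
  induction n with
  | zero => simp
  | succ n ih =>
    rw [pow_succ, Derivation.leibniz]
    simp only [smul_eq_mul]
    push_cast
    linear_combination f * ih

theorem deriv_prod_pow_aux {ι : Type*} [DecidableEq ι] (δ : Derivation ℂ Poly Poly)
    (s : Finset ι) (f : ι → Poly) (n : ι → ℕ) :
    (∏ j ∈ s, f j) * δ (∏ j ∈ s, f j ^ n j) =
      (∏ j ∈ s, f j ^ n j) * ∑ j ∈ s, (n j : Poly) * ((∏ k ∈ s.erase j, f k) * δ (f j)) := by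
  induction s using Finset.induction_on with
  | empty => simp
  | insert a s ha ih =>
    rw [Finset.prod_insert ha, Finset.prod_insert ha, Derivation.leibniz, Finset.sum_insert ha,
      Finset.erase_insert ha]
    have h1 : ∀ j ∈ s, (n j : Poly) * ((∏ k ∈ (insert a s).erase j, f k) * δ (f j)) =
        f a * ((n j : Poly) * ((∏ k ∈ s.erase j, f k) * δ (f j))) := by
      intro j hj
      have hne : a ≠ j := fun h => ha (h ▸ hj)
      rw [Finset.erase_insert_of_ne hne, Finset.prod_insert (by simp [ha])]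
      ring
    rw [Finset.sum_congr rfl h1, ← Finset.mul_sum]
    simp only [smul_eq_mul]
    have h2 := deriv_pow_aux δ (f a) (n a)
    linear_combination (f a ^ n a * f a) * ih + ((∏ j ∈ s, f j) * (∏ j ∈ s, f j ^ n j)) * h2

theorem logForm_fst {s : ℕ} (f : Fin s → Poly) (lam : Fin s → ℂ) :
    (logForm f lam).1 = ∑ j, C (lam j) * ((∏ k ∈ Finset.univ.erase j, f k) * pderiv 0 (f j)) := by
  unfold logForm diff
  rw [Prod.fst_sum]
  refine Finset.sum_congr rfl fun j _ => ?_
  simp [smul_eq_C_mul]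

theorem logForm_snd {s : ℕ} (f : Fin s → Poly) (lam : Fin s → ℂ) :
    (logForm f lam).2 = ∑ j, C (lam j) * ((∏ k ∈ Finset.univ.erase j, f k) * pderiv 1 (f j)) := by
  unfold logForm diff
  rw [Prod.snd_sum]
  refine Finset.sum_congr rfl fun j _ => ?_
  simp [smul_eq_C_mul]

theorem erase_castSucc {s : ℕ} (j : Fin s) :
    (Finset.univ.erase (Fin.castSucc j) : Finset (Fin (s + 1))) =
      insert (Fin.last s) ((Finset.univ.erase j).map Fin.castSuccEmb) := by
  ext k
  refine Fin.lastCases ?_ (fun k => ?_) k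
  · simp [Fin.ext_iff, (Fin.is_lt j).ne']
  · simp

theorem erase_last {s : ℕ} :
    (Finset.univ.erase (Fin.last s) : Finset (Fin (s + 1))) =
      (Finset.univ : Finset (Fin s)).map Fin.castSuccEmb := by
  ext k
  refine Fin.lastCases ?_ (fun k => ?_) k
  · simp
  · simp [Fin.ext_iff, (Fin.is_lt k).ne]

theorem deriv_snoc_aux {s : ℕ} (δ : Derivation ℂ Poly Poly) (f : Fin s → Poly)
    (lam : Fin s → ℂ) (n : Fin s → ℕ) (g : Poly) (t : ℂ) (ht : t ≠ 0) :
    ∑ j, C (Fin.snoc (α := fun _ => ℂ) (fun j => lam j - n j / t) (1 / t) j) *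
        ((∏ k ∈ Finset.univ.erase j,
          Fin.snoc (α := fun _ => Poly) f ((∏ j, f j ^ n j) + t • g) k) *
          δ (Fin.snoc (α := fun _ => Poly) f ((∏ j, f j ^ n j) + t • g) j)) =
      (∏ j, f j ^ n j) * (∑ j, C (lam j) * ((∏ k ∈ Finset.univ.erase j, f k) * δ (f j)))
        + (∏ j, f j) * δ g
        - g * (∑ j, C (n j : ℂ) * ((∏ k ∈ Finset.univ.erase j, f k) * δ (f j)))
        + t • (g * ∑ j, C (lam j) * ((∏ k ∈ Finset.univ.erase j, f k) * δ (f j))) := by
  rw [Fin.sum_univ_castSucc]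
  simp only [Fin.snoc_castSucc, Fin.snoc_last]
  have h1 : ∀ j : Fin s, (∏ k ∈ Finset.univ.erase (Fin.castSucc j),
      Fin.snoc (α := fun _ => Poly) f ((∏ j, f j ^ n j) + t • g) k) =
      ((∏ j, f j ^ n j) + t • g) * ∏ k ∈ Finset.univ.erase j, f k := by
    intro j
    rw [erase_castSucc, Finset.prod_insert (by simp), Finset.prod_map]
    simp
  have h2 : (∏ k ∈ Finset.univ.erase (Fin.last s),
      Fin.snoc (α := fun _ => Poly) f ((∏ j, f j ^ n j) + t • g) k) = ∏ k, f k := by
    rw [erase_last, Finset.prod_map]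
    simp
  simp only [h1, h2]
  have h3 := deriv_prod_pow_aux δ Finset.univ f n
  have h4 : ∀ j : Fin s, C (lam j - n j / t) * ((((∏ j, f j ^ n j) + t • g) *
      ∏ k ∈ Finset.univ.erase j, f k) * δ (f j)) =
      ((∏ j, f j ^ n j) + t • g) * (C (lam j) * ((∏ k ∈ Finset.univ.erase j, f k) * δ (f j)))
      - C (1 / t) * ((∏ j, f j ^ n j) + t • g) *
        ((n j : Poly) * ((∏ k ∈ Finset.univ.erase j, f k) * δ (f j))) := by
    intro j
    have : (C (lam j - n j / t) : Poly) = C (lam j) - C (1 / t) * (n j : Poly) := by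
      rw [← map_natCast (C : ℂ →+* Poly) (n j), ← C_mul, ← C_sub]
      congr 1
      ring
    rw [this]; ring
  simp only [h4]
  rw [Finset.sum_sub_distrib, ← Finset.mul_sum, ← Finset.mul_sum, map_add,
    Derivation.map_smul]
  have h5 : ∀ j : Fin s, (C (n j : ℂ) : Poly) = (n j : Poly) := fun j => by simp
  simp only [h5]
  have ht' : (C (1 / t) : Poly) * C t = 1 := by
    rw [← C_mul]; simp [ht]
  simp only [smul_eq_C_mul]
  linear_combination (C (1 / t)) * h3 + ((∏ j, f j) * δ g
    - g * (∑ j, (n j : Poly) * ((∏ k ∈ Finset.univ.erase j, f k) * δ (f j)))) * ht'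

theorem logForm_snoc {s : ℕ} (f : Fin s → Poly) (lam : Fin s → ℂ) (n : Fin s → ℕ) (g : Poly)
    (t : ℂ) (ht : t ≠ 0) :
    logForm (Fin.snoc (α := fun _ => Poly) f ((∏ j, f j ^ n j) + t • g))
        (Fin.snoc (α := fun _ => ℂ) (fun j => lam j - n j / t) (1 / t)) =
      expForm f lam n g + t • (g • logForm f lam) := by
  apply Prod.ext
  · rw [logForm_fst, deriv_snoc_aux (pderiv 0) f lam n g t ht]
    simp [expForm, logForm_fst, diff]
  · rw [logForm_snd, deriv_snoc_aux (pderiv 1) f lam n g t ht]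
    simp [expForm, logForm_snd, diff]

theorem totalDegree_term {s : ℕ} (i : Fin 2) (f : Fin s → Poly) (D : Fin s → ℕ)
    (hf : ∀ j, (f j).totalDegree ≤ D j) (j : Fin s) (c : ℂ) {d : ℕ} (hd : ∑ j, D j ≤ d + 1) :
    (C c * ((∏ k ∈ Finset.univ.erase j, f k) * pderiv i (f j))).totalDegree ≤ d := by
  by_cases h0 : pderiv i (f j) = 0
  · simp [h0]
  have h1 : (f j).totalDegree ≠ 0 := fun h => h0 (pderiv_eq_zero_of_totalDegree_zero i (f j) h)
  have h2 := totalDegree_pderiv_le i (f j)
  have h3 : (∏ k ∈ Finset.univ.erase j, f k).totalDegree ≤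
      ∑ k ∈ Finset.univ.erase j, D k :=
    (totalDegree_finsetProd _ _).trans (Finset.sum_le_sum fun k _ => hf k)
  have h4 : ∑ k ∈ Finset.univ.erase j, D k + D j = ∑ k, D k :=
    Finset.sum_erase_add _ _ (Finset.mem_univ j)
  have h5 := totalDegree_mul (C c) ((∏ k ∈ Finset.univ.erase j, f k) * pderiv i (f j))
  have h6 := totalDegree_mul (∏ k ∈ Finset.univ.erase j, f k) (pderiv i (f j))
  rw [totalDegree_C] at h5
  have h7 := hf j
  omega

theorem logForm_mem_forms {s : ℕ} (f : Fin s → Poly) (lam : Fin s → ℂ) (D : Fin s → ℕ)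
    (hf : ∀ j, (f j).totalDegree ≤ D j) {d : ℕ} (hd : ∑ j, D j ≤ d + 1) :
    logForm f lam ∈ forms d := by
  refine ⟨?_, ?_⟩
  · rw [logForm_fst]
    refine Submodule.sum_mem _ fun j _ => ?_
    rw [mem_restrictTotalDegree]
    exact totalDegree_term 0 f D hf j _ hd
  · rw [logForm_snd]
    refine Submodule.sum_mem _ fun j _ => ?_
    rw [mem_restrictTotalDegree]
    exact totalDegree_term 1 f D hf j _ hd

theorem mul_mem_restrict {a b : ℕ} {g h : Poly} (hg : g.totalDegree ≤ a)
    (hh : h ∈ restrictTotalDegree (Fin 2) ℂ b) : g * h ∈ restrictTotalDegree (Fin 2) ℂ (a + b) := by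
  rw [mem_restrictTotalDegree] at hh ⊢
  exact (totalDegree_mul g h).trans (by omega)

theorem smul_logForm_mem_forms {s : ℕ} (f : Fin s → Poly) (lam : Fin s → ℂ) (D : Fin s → ℕ)
    (e : ℕ) (g : Poly) (hg : g.totalDegree ≤ e)
    (hf : ∀ j, (f j).totalDegree ≤ D j) {d : ℕ} (hd : ∑ j, D j + e = d + 1) :
    g • logForm f lam ∈ forms d := by
  by_cases hs : ∑ j, D j = 0
  · -- all `f j` are constants, hence the logarithmic form vanishes
    have h0 : ∀ j, (f j).totalDegree = 0 := fun j => by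
      have h1 := hf j
      have h2 : D j ≤ ∑ j, D j := Finset.single_le_sum (fun _ _ => Nat.zero_le _) (Finset.mem_univ j)
      omega
    have h1 : logForm f lam = 0 := by
      apply Prod.ext
      · rw [logForm_fst]
        refine Finset.sum_eq_zero fun j _ => ?_
        rw [pderiv_eq_zero_of_totalDegree_zero 0 (f j) (h0 j)]; simp
      · rw [logForm_snd]
        refine Finset.sum_eq_zero fun j _ => ?_
        rw [pderiv_eq_zero_of_totalDegree_zero 1 (f j) (h0 j)]; simp
    rw [h1, smul_zero]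
    exact Submodule.zero_mem _
  · obtain ⟨b, hb⟩ : ∃ b, ∑ j, D j = b + 1 := Nat.exists_eq_succ_of_ne_zero hs
    have h1 := logForm_mem_forms f lam D hf hb.le
    have hdb : d = e + b := by omega
    subst hdb
    exact ⟨mul_mem_restrict hg h1.1, mul_mem_restrict hg h1.2⟩

theorem expFamily_subset (d : ℕ) {s : ℕ} (D : Fin s → ℕ) (e : ℕ)
    (hsum : ∑ j, D j + e = d + 1) :
    expFamily d D e ⊆ zariskiClosure (logFamily d (Fin.snoc (α := fun _ => ℕ) D e)) := by
  rintro x ⟨f, lam, n, g, hf, hg, hF, ω, h, hω, rfl⟩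
  refine mem_zariskiClosure_of_line _ ω
    ⟨g • logForm f lam, smul_logForm_mem_forms f lam D e g hg hf hsum⟩ h ?_
  intro t ht hne
  refine ⟨Fin.snoc (α := fun _ => Poly) f ((∏ j, f j ^ n j) + t • g),
    Fin.snoc (α := fun _ => ℂ) (fun j => lam j - n j / t) (1 / t), ?_, _, hne, ?_, rfl⟩
  · intro j
    refine Fin.lastCases ?_ (fun j => ?_) j
    · simp only [Fin.snoc_last]
      refine (totalDegree_add _ _).trans (max_le hF ?_)
      exact (totalDegree_smul_le t g).trans hg
    · simp only [Fin.snoc_castSucc]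
      exact hf j
  · rw [logForm_snoc f lam n g t ht, ← hω]
    rfl

/-- The coefficient of the monomial `m` in `B_x - A_y`, as a polynomial in the coordinates. -/
noncomputable def curlCoord (m : Fin 2 →₀ ℕ) : PolyFun :=
  C ((m 0 : ℂ) + 1) * X (1, m + Finsupp.single 0 1) -
    C ((m 1 : ℂ) + 1) * X (0, m + Finsupp.single 1 1)

theorem eval_curlCoord (ω : Form) (m : Fin 2 →₀ ℕ) :
    eval (coord ω) (curlCoord m) = coeff m (pderiv 0 ω.2 - pderiv 1 ω.1) := by
  unfold curlCoord coord
  simp [coeff_pderiv]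
  ring

theorem curlCoord_hom (m : Fin 2 →₀ ℕ) : (curlCoord m).IsHomogeneous 1 := by
  unfold curlCoord
  exact (isHomogeneous_C_mul_X _ _).sub (isHomogeneous_C_mul_X _ _)

theorem det_hom (M : Matrix (Fin 3) (Fin 3) PolyFun) (h : ∀ i j, (M i j).IsHomogeneous 1) :
    M.det.IsHomogeneous 3 := by
  rw [Matrix.det_fin_three]
  have h3 : ∀ a b c a' b' c' : Fin 3, (M a a' * M b b' * M c c').IsHomogeneous 3 :=
    fun a b c a' b' c' => ((h a a').mul (h b b')).mul (h c c')
  exact (((((h3 _ _ _ _ _ _).sub (h3 _ _ _ _ _ _)).sub (h3 _ _ _ _ _ _)).add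
    (h3 _ _ _ _ _ _)).add (h3 _ _ _ _ _ _)).sub (h3 _ _ _ _ _ _)

/-- The three monomials `y^{n+1}`, `x y^{n+1}`, `1`. -/
noncomputable def mono (n : ℕ) : Fin 3 → (Fin 2 →₀ ℕ) :=
  ![Finsupp.single 1 1 + Finsupp.single 1 n,
    Finsupp.single 0 1 + (Finsupp.single 1 1 + Finsupp.single 1 n), 0]

theorem finsupp_eq_iff (m m' : Fin 2 →₀ ℕ) : m = m' ↔ m 0 = m' 0 ∧ m 1 = m' 1 := by
  rw [Finsupp.ext_iff, Fin.forall_fin_two]



theorem totalDegree_affine_le (a b c : ℂ) : (affine a b c).totalDegree ≤ 1 := by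
  unfold affine
  refine (totalDegree_add _ _).trans (max_le ((totalDegree_add _ _).trans (max_le ?_ ?_)) ?_)
  · simp
  · exact (totalDegree_mul _ _).trans (by simp)
  · exact (totalDegree_mul _ _).trans (by simp)

theorem logForm_one (p : Poly) (c : ℂ) : logForm ![p] ![c] = c • diff p := by
  unfold logForm
  simp

theorem logForm_one' (p : Poly) (c : Fin 1 → ℂ) : logForm ![p] c = c 0 • diff p := by
  unfold logForm
  simp

theorem familyA_subset (d i : ℕ) (hi : i ≤ d) : familyA d i ⊆ expFamily d ![1] d := by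
  rintro x ⟨a, b, c, q, -, hq, ω, h, hω, rfl⟩
  refine ⟨![affine a b c], ![1], ![i], q, ?_, hq.le, ?_, ω, h, ?_, rfl⟩
  · intro j
    fin_cases j
    exact totalDegree_affine_le a b c
  · simp only [Fin.prod_univ_one, Matrix.cons_val_zero]
    refine (totalDegree_pow _ _).trans ?_
    have := totalDegree_affine_le a b c
    calc i * (affine a b c).totalDegree ≤ i * 1 := Nat.mul_le_mul_left i this
      _ ≤ d := by omega
  · rw [hω]
    unfold expForm
    rw [logForm_one', logForm_one']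
    simp only [Fin.prod_univ_one, Matrix.cons_val_zero, one_smul]
    congr 1
    rw [smul_comm, smul_assoc]

theorem familyB_subset (d : ℕ) : familyB d ⊆ expFamily d ![d] 1 := by
  rintro x ⟨a, b, c, q, -, hq, ω, h, hω, rfl⟩
  refine ⟨![q], ![1], ![0], affine a b c, ?_, totalDegree_affine_le a b c, ?_, ω, h, ?_, rfl⟩
  · intro j
    fin_cases j
    exact hq.le
  · simp
  · rw [hω]
    unfold expForm
    rw [logForm_one', logForm_one']
    simp

theorem snoc_one (d : ℕ) : (Fin.snoc (α := fun _ => ℕ) ![1] d : Fin 2 → ℕ) = ![1, d] := by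
  funext j
  fin_cases j <;> rfl

theorem snoc_two (d : ℕ) : (Fin.snoc (α := fun _ => ℕ) ![d] 1 : Fin 2 → ℕ) = ![d, 1] := by
  funext j
  fin_cases j <;> rfl

theorem logForm_two (f g : Poly) (c e : ℂ) :
    logForm ![f, g] ![c, e] = c • (g • diff f) + e • (f • diff g) := by
  have h0 : (Finset.univ.erase (0 : Fin 2)) = {1} := by decide
  have h1 : (Finset.univ.erase (1 : Fin 2)) = {0} := by decide
  unfold logForm
  rw [Fin.sum_univ_two, h0, h1]
  simp

theorem logFamily_swap (d a b : ℕ) : logFamily d ![a, b] ⊆ logFamily d ![b, a] := by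
  rintro x ⟨f, lam, hf, ω, h, hω, rfl⟩
  refine ⟨![f 1, f 0], ![lam 1, lam 0], ?_, ω, h, ?_, rfl⟩
  · intro j
    fin_cases j
    · exact hf 1
    · exact hf 0
  · rw [hω, logForm_two]
    have e1 : f = ![f 0, f 1] := by funext j; fin_cases j <;> rfl
    have e2 : lam = ![lam 0, lam 1] := by funext j; fin_cases j <;> rfl
    conv_lhs => rw [e1, e2]
    rw [logForm_two, add_comm]

theorem zariskiClosure_mono {d : ℕ} {Z W : Set (Fol d)} (h : Z ⊆ W) :
    zariskiClosure Z ⊆ zariskiClosure W :=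
  zariskiClosure_subset (isAlgebraic_zariskiClosure W) (h.trans (subset_zariskiClosure W))

theorem closure_familyA_subset (d i : ℕ) (hi : i ≤ d) :
    zariskiClosure (familyA d i) ⊆ zariskiClosure (logFamily d ![1, d]) := by
  refine zariskiClosure_subset (isAlgebraic_zariskiClosure _) ?_
  refine (familyA_subset d i hi).trans ?_
  have := expFamily_subset d ![1] d (by simp; omega)
  rwa [snoc_one] at this

theorem closure_familyB_subset (d : ℕ) :
    zariskiClosure (familyB d) ⊆ zariskiClosure (logFamily d ![1, d]) := by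
  refine zariskiClosure_subset (isAlgebraic_zariskiClosure _) ?_
  refine (familyB_subset d).trans ?_
  have := expFamily_subset d ![d] 1 (by simp)
  rw [snoc_two] at this
  exact this.trans (zariskiClosure_mono (logFamily_swap d d 1))



/-- The coefficient of `m` in `X j * (B_x - A_y)`. -/
noncomputable def curlShift (j : Fin 2) (m : Fin 2 →₀ ℕ) : PolyFun :=
  if j ∈ m.support then curlCoord (m - Finsupp.single j 1) else 0

theorem eval_curlShift (ω : Form) (j : Fin 2) (m : Fin 2 →₀ ℕ) :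
    eval (coord ω) (curlShift j m) = coeff m (X j * (pderiv 0 ω.2 - pderiv 1 ω.1)) := by
  unfold curlShift
  rw [coeff_X_mul']
  split_ifs with h
  · exact eval_curlCoord ω _
  · simp

theorem curlShift_hom (j : Fin 2) (m : Fin 2 →₀ ℕ) : (curlShift j m).IsHomogeneous 1 := by
  unfold curlShift
  split_ifs
  · exact curlCoord_hom _
  · exact isHomogeneous_zero _ _ _

theorem eval_X_zero (ω : Form) (m : Fin 2 →₀ ℕ) :
    eval (coord ω) (X (0, m) : PolyFun) = coeff m ω.1 := by simp [coord]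

theorem eval_X_one (ω : Form) (m : Fin 2 →₀ ℕ) :
    eval (coord ω) (X (1, m) : PolyFun) = coeff m ω.2 := by simp [coord]

/-- The matrix detecting the family `A_i`. -/
noncomputable def matA (n i : ℕ) : Matrix (Fin 3) (Fin 3) PolyFun := fun k =>
  ![curlCoord (mono n k),
    curlShift 0 (mono n k) - C (1 + (i : ℂ)) * X (1, mono n k),
    curlShift 1 (mono n k) + C (1 + (i : ℂ)) * X (0, mono n k)]

/-- The matrix detecting the family `B_1`. -/
noncomputable def matB (n : ℕ) : Matrix (Fin 3) (Fin 3) PolyFun := fun k =>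
  ![curlCoord (mono n k), X (1, mono n k), C (-1) * X (0, mono n k)]

theorem matA_hom (n i : ℕ) (k l : Fin 3) : (matA n i k l).IsHomogeneous 1 := by
  fin_cases l
  · exact curlCoord_hom _
  · exact (curlShift_hom _ _).sub (isHomogeneous_C_mul_X _ _)
  · exact (curlShift_hom _ _).add (isHomogeneous_C_mul_X _ _)

theorem matB_hom (n : ℕ) (k l : Fin 3) : (matB n k l).IsHomogeneous 1 := by
  fin_cases l
  · exact curlCoord_hom _
  · exact isHomogeneous_X _ _
  · exact isHomogeneous_C_mul_X _ _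

/-- The columns of `matA`, as polynomials. -/
noncomputable def colA (i : ℕ) (ω : Form) : Fin 3 → Poly :=
  ![pderiv 0 ω.2 - pderiv 1 ω.1,
    X 0 * (pderiv 0 ω.2 - pderiv 1 ω.1) - C (1 + (i : ℂ)) * ω.2,
    X 1 * (pderiv 0 ω.2 - pderiv 1 ω.1) + C (1 + (i : ℂ)) * ω.1]

/-- The columns of `matB`, as polynomials. -/
noncomputable def colB (ω : Form) : Fin 3 → Poly :=
  ![pderiv 0 ω.2 - pderiv 1 ω.1, ω.2, C (-1) * ω.1]

theorem eval_matA (n i : ℕ) (ω : Form) (k l : Fin 3) :
    eval (coord ω) (matA n i k l) = coeff (mono n k) (colA i ω l) := by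
  fin_cases l
  · exact eval_curlCoord ω _
  · show eval (coord ω) (curlShift 0 (mono n k) - C (1 + (i : ℂ)) * X (1, mono n k)) =
      coeff (mono n k) (X 0 * (pderiv 0 ω.2 - pderiv 1 ω.1) - C (1 + (i : ℂ)) * ω.2)
    rw [map_sub, map_mul, eval_C, eval_curlShift, eval_X_one, coeff_sub, coeff_C_mul]
  · show eval (coord ω) (curlShift 1 (mono n k) + C (1 + (i : ℂ)) * X (0, mono n k)) =
      coeff (mono n k) (X 1 * (pderiv 0 ω.2 - pderiv 1 ω.1) + C (1 + (i : ℂ)) * ω.1)
    rw [map_add, map_mul, eval_C, eval_curlShift, eval_X_zero, coeff_add, coeff_C_mul]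

theorem eval_matB (n : ℕ) (ω : Form) (k l : Fin 3) :
    eval (coord ω) (matB n k l) = coeff (mono n k) (colB ω l) := by
  fin_cases l
  · exact eval_curlCoord ω _
  · exact eval_X_one ω _
  · show eval (coord ω) (C (-1) * X (0, mono n k) : PolyFun) = coeff (mono n k) (C (-1) * ω.1)
    rw [map_mul, eval_C, eval_X_zero, coeff_C_mul]

/-- A linear relation between the columns forces the determinant to vanish. -/
theorem det_eq_zero_of_relation (n : ℕ) (M : Matrix (Fin 3) (Fin 3) PolyFun) (ω : Form)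
    (col : Fin 3 → Poly)
    (hM : ∀ k l, eval (coord ω) (M k l) = coeff (mono n k) (col l))
    (v : Fin 3 → ℂ) (hv : v ≠ 0)
    (hrel : C (v 0) * col 0 + C (v 1) * col 1 + C (v 2) * col 2 = 0) :
    eval (coord ω) M.det = 0 := by
  rw [RingHom.map_det]
  refine Matrix.exists_mulVec_eq_zero_iff.mp ⟨v, hv, ?_⟩
  funext k
  have h := congrArg (coeff (mono n k)) hrel
  simp only [coeff_add, coeff_C_mul, coeff_zero] at h
  simp only [Matrix.mulVec, dotProduct, Fin.sum_univ_three, RingHom.mapMatrix_apply,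
    Matrix.map_apply, hM, Pi.zero_apply]
  linear_combination h

theorem pderiv_affine_zero (a b c : ℂ) : pderiv 0 (affine a b c) = C b := by
  unfold affine
  simp [pderiv_X]

theorem pderiv_affine_one (a b c : ℂ) : pderiv 1 (affine a b c) = C c := by
  unfold affine
  simp [pderiv_X]

theorem relation_familyA (i : ℕ) (a b c : ℂ) (q : Poly) (ω : Form)
    (hω : ω = (affine a b c) ^ i • diff (affine a b c) + (affine a b c) • diff q
        - ((i : ℂ) • q) • diff (affine a b c)) :
    C a * colA i ω 0 + C b * colA i ω 1 + C c * colA i ω 2 = 0 := by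
  have h1 : ω.1 = (affine a b c) ^ i * C b + affine a b c * pderiv 0 q - C (i : ℂ) * q * C b := by
    rw [hω]; simp [diff, pderiv_affine_zero, smul_eq_C_mul]
  have h2 : ω.2 = (affine a b c) ^ i * C c + affine a b c * pderiv 1 q - C (i : ℂ) * q * C c := by
    rw [hω]; simp [diff, pderiv_affine_one, smul_eq_C_mul]
  have hp0 : pderiv 0 ((affine a b c) ^ i) = (i : Poly) * (affine a b c) ^ (i - 1) * C b := by
    rw [Derivation.leibniz_pow, pderiv_affine_zero]; simp [mul_assoc]
  have hp1 : pderiv 1 ((affine a b c) ^ i) = (i : Poly) * (affine a b c) ^ (i - 1) * C c := by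
    rw [Derivation.leibniz_pow, pderiv_affine_one]; simp [mul_assoc]
  have h3 : pderiv 0 ω.2 = (i : Poly) * (affine a b c) ^ (i - 1) * C b * C c +
      (affine a b c * pderiv 0 (pderiv 1 q) + pderiv 1 q * C b) - C (i : ℂ) * C c * pderiv 0 q := by
    rw [h2]
    simp only [map_sub, map_add, Derivation.leibniz, hp0, pderiv_affine_zero, pderiv_C,
      smul_eq_mul, mul_zero, add_zero, zero_add]
    ring
  have h4 : pderiv 1 ω.1 = (i : Poly) * (affine a b c) ^ (i - 1) * C c * C b +
      (affine a b c * pderiv 1 (pderiv 0 q) + pderiv 0 q * C c) - C (i : ℂ) * C b * pderiv 1 q := by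
    rw [h1]
    simp only [map_sub, map_add, Derivation.leibniz, hp1, pderiv_affine_one, pderiv_C,
      smul_eq_mul, mul_zero, add_zero, zero_add]
    ring
  have h5 : pderiv 0 ω.2 - pderiv 1 ω.1 =
      C (1 + (i : ℂ)) * (C b * pderiv 1 q - C c * pderiv 0 q) := by
    rw [h3, h4, pderiv_comm, C_add, C_1]
    ring
  have h6 : C a * colA i ω 0 + C b * colA i ω 1 + C c * colA i ω 2 =
      affine a b c * (pderiv 0 ω.2 - pderiv 1 ω.1) +
        C (1 + (i : ℂ)) * (C c * ω.1 - C b * ω.2) := by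
    show C a * (pderiv 0 ω.2 - pderiv 1 ω.1) +
      C b * (X 0 * (pderiv 0 ω.2 - pderiv 1 ω.1) - C (1 + (i : ℂ)) * ω.2) +
      C c * (X 1 * (pderiv 0 ω.2 - pderiv 1 ω.1) + C (1 + (i : ℂ)) * ω.1) = _
    unfold affine
    ring
  rw [h6, h5, h1, h2]
  ring

theorem relation_familyB (a b c : ℂ) (q : Poly) (ω : Form)
    (hω : ω = diff q + q • diff (affine a b c)) :
    C 1 * colB ω 0 + C b * colB ω 1 + C c * colB ω 2 = 0 := by
  have h1 : ω.1 = pderiv 0 q + q * C b := by
    rw [hω]; simp [diff, pderiv_affine_zero]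
  have h2 : ω.2 = pderiv 1 q + q * C c := by
    rw [hω]; simp [diff, pderiv_affine_one]
  show C 1 * (pderiv 0 ω.2 - pderiv 1 ω.1) + C b * ω.2 + C c * (C (-1) * ω.1) = 0
  rw [h1, h2]
  simp only [map_add, Derivation.leibniz, pderiv_C, smul_eq_mul, mul_zero, zero_add]
  rw [pderiv_comm, C_neg, C_1]
  ring

theorem det_matA_familyA (n i : ℕ) (x : Fol (n + 2)) (hx : x ∈ familyA (n + 2) i) :
    x ∈ zeroLocus (n + 2) {(matA n i).det} := by
  obtain ⟨a, b, c, q, hbc, -, ω, h, hω, rfl⟩ := hx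
  rw [mk_mem_zeroLocus]
  · intro Φ hΦ
    rw [Set.mem_singleton_iff.mp hΦ]
    refine det_eq_zero_of_relation n (matA n i) ω (colA i ω) (eval_matA n i ω) ![a, b, c] ?_ ?_
    · intro h0
      have h1 := congrFun h0 1
      have h2 := congrFun h0 2
      simp at h1 h2
      rcases hbc with h | h
      · exact h h1
      · exact h h2
    · exact relation_familyA i a b c q ω hω
  · intro Φ hΦ
    rw [Set.mem_singleton_iff.mp hΦ]
    exact ⟨3, det_hom _ (matA_hom n i)⟩

theorem det_matB_familyB (n : ℕ) (x : Fol (n + 2)) (hx : x ∈ familyB (n + 2)) :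
    x ∈ zeroLocus (n + 2) {(matB n).det} := by
  obtain ⟨a, b, c, q, hbc, -, ω, h, hω, rfl⟩ := hx
  rw [mk_mem_zeroLocus]
  · intro Φ hΦ
    rw [Set.mem_singleton_iff.mp hΦ]
    refine det_eq_zero_of_relation n (matB n) ω (colB ω) (eval_matB n ω) ![1, b, c] ?_ ?_
    · intro h0
      have h1 := congrFun h0 0
      simp at h1
    · exact relation_familyB a b c q ω hω
  · intro Φ hΦ
    rw [Set.mem_singleton_iff.mp hΦ]
    exact ⟨3, det_hom _ (matB_hom n)⟩


/-! ### The witness `x² (y^{n+2} + 1)` -/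

/-- The logarithmic form with first integral `x² (y^{n+2} + 1)`. -/
noncomputable def witness (n : ℕ) : Form := logForm ![X 0, X 1 ^ (n + 2) + 1] ![2, 1]

theorem witness_fst (n : ℕ) : (witness n).1 =
    monomial (Finsupp.single 1 (n + 2)) (2 : ℂ) + monomial 0 (2 : ℂ) := by
  unfold witness
  rw [logForm_two]
  simp only [diff, Prod.fst_add, Prod.smul_fst, smul_eq_mul, pderiv_X_self, map_add,
    Derivation.leibniz_pow, pderiv_X_of_ne (show (1 : Fin 2) ≠ 0 by decide), mul_zero, smul_zero,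
    Derivation.map_one_eq_zero, add_zero, mul_one, smul_add]
  rw [X_pow_eq_monomial, smul_monomial, ← C_1, smul_eq_C_mul, ← C_mul]
  simp

theorem witness_snd (n : ℕ) : (witness n).2 =
    monomial (Finsupp.single 0 1 + Finsupp.single 1 (n + 1)) ((n : ℂ) + 2) := by
  unfold witness
  rw [logForm_two]
  simp only [diff, Prod.snd_add, Prod.smul_snd, smul_eq_mul, pderiv_X_self, map_add,
    Derivation.leibniz_pow, pderiv_X_of_ne (show (0 : Fin 2) ≠ 1 by decide), mul_zero, smul_zero,
    Derivation.map_one_eq_zero, add_zero, mul_one, zero_add, one_smul]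
  rw [show n + 2 - 1 = n + 1 from rfl, X_pow_eq_monomial, X, ← map_nsmul, monomial_mul]
  simp

theorem witness_curl (n : ℕ) : pderiv 0 (witness n).2 - pderiv 1 (witness n).1 =
    monomial (Finsupp.single 1 (n + 1)) (-((n : ℂ) + 2)) := by
  rw [witness_fst, witness_snd, pderiv_monomial, map_add, pderiv_monomial, pderiv_monomial]
  have e1 : (Finsupp.single (0 : Fin 2) 1 + Finsupp.single 1 (n + 1)) - Finsupp.single 0 1 =
      Finsupp.single (1 : Fin 2) (n + 1) := by
    rw [finsupp_eq_iff]; simp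
  have e2 : (Finsupp.single (1 : Fin 2) (n + 2)) - Finsupp.single 1 1 =
      Finsupp.single (1 : Fin 2) (n + 1) := by
    rw [finsupp_eq_iff]; simp
  rw [e1, e2]
  have e3 : (monomial (0 - Finsupp.single (1 : Fin 2) 1)) ((2 : ℂ) * ((0 : Fin 2 →₀ ℕ) 1 : ℕ)) = 0 := by
    simp
  rw [e3, add_zero, ← map_sub]
  congr 1
  simp
  ring

theorem witness_colA (n i : ℕ) (l : Fin 3) : colA i (witness n) l =
    ![monomial (Finsupp.single 1 (n + 1)) (-((n : ℂ) + 2)),
      monomial (Finsupp.single 0 1 + Finsupp.single 1 (n + 1)) (-((n : ℂ) + 2) * (2 + i)),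
      monomial (Finsupp.single 1 (n + 2)) (-((n : ℂ) + 2) + 2 * (1 + i)) +
        monomial 0 (2 * (1 + (i : ℂ)))] l := by
  fin_cases l
  · exact witness_curl n
  · show X 0 * (pderiv 0 (witness n).2 - pderiv 1 (witness n).1)
      - C (1 + (i : ℂ)) * (witness n).2 = _
    rw [witness_curl, witness_snd, X, monomial_mul, C_mul_monomial, ← map_sub]
    show _ = monomial (Finsupp.single 0 1 + Finsupp.single 1 (n + 1)) (-((n : ℂ) + 2) * (2 + i))
    congr 1
    ring
  · show X 1 * (pderiv 0 (witness n).2 - pderiv 1 (witness n).1)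
      + C (1 + (i : ℂ)) * (witness n).1 = _
    rw [witness_curl, witness_fst, X, monomial_mul, mul_add, C_mul_monomial, C_mul_monomial]
    show _ = monomial (Finsupp.single 1 (n + 2)) (-((n : ℂ) + 2) + 2 * (1 + i)) +
        monomial 0 (2 * (1 + (i : ℂ)))
    have e : (Finsupp.single (1 : Fin 2) 1 + Finsupp.single 1 (n + 1)) =
      Finsupp.single (1 : Fin 2) (n + 2) := by
      rw [finsupp_eq_iff]; simp; omega
    rw [e, ← add_assoc, ← map_add, one_mul]
    congr 2
    · ring
    · ring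

theorem witness_colB (n : ℕ) (l : Fin 3) : colB (witness n) l =
    ![monomial (Finsupp.single 1 (n + 1)) (-((n : ℂ) + 2)),
      monomial (Finsupp.single 0 1 + Finsupp.single 1 (n + 1)) ((n : ℂ) + 2),
      monomial (Finsupp.single 1 (n + 2)) (-2) + monomial 0 (-2 : ℂ)] l := by
  fin_cases l
  · exact witness_curl n
  · exact witness_snd n
  · show C (-1) * (witness n).1 = _
    rw [witness_fst, mul_add, C_mul_monomial, C_mul_monomial]
    show _ = monomial (Finsupp.single 1 (n + 2)) (-2 : ℂ) + monomial 0 (-2 : ℂ)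
    congr 2
    · ring
    · ring

theorem mono_values (n : ℕ) (k : Fin 3) : (mono n k) 0 = ![0, 1, 0] k ∧
    (mono n k) 1 = ![n + 1, n + 1, 0] k := by
  fin_cases k <;> simp [mono] <;> omega

theorem coeff_mono (n : ℕ) (k : Fin 3) (m : Fin 2 →₀ ℕ) (c : ℂ) :
    coeff (mono n k) (monomial m c : Poly) =
      if m 0 = ![0, 1, 0] k ∧ m 1 = ![n + 1, n + 1, 0] k then c else 0 := by
  rw [coeff_monomial]
  obtain ⟨h0, h1⟩ := mono_values n k
  have : (m = mono n k) ↔ (m 0 = ![0, 1, 0] k ∧ m 1 = ![n + 1, n + 1, 0] k) := by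
    rw [finsupp_eq_iff, h0, h1]
  simp only [this]

theorem coeff_matrix (n : ℕ) (α β γ κ : ℂ) (k l : Fin 3) :
    coeff (mono n k) ((![monomial (Finsupp.single 1 (n + 1)) α,
      monomial (Finsupp.single 0 1 + Finsupp.single 1 (n + 1)) β,
      monomial (Finsupp.single 1 (n + 2)) γ + monomial 0 κ] : Fin 3 → Poly) l) =
      Matrix.diagonal ![α, β, κ] k l := by
  fin_cases l
  · show coeff (mono n k) (monomial (Finsupp.single 1 (n + 1)) α : Poly) = _
    rw [coeff_mono]
    fin_cases k <;> simp [Matrix.diagonal]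
  · show coeff (mono n k)
      (monomial (Finsupp.single 0 1 + Finsupp.single 1 (n + 1)) β : Poly) = _
    rw [coeff_mono]
    fin_cases k <;> simp [Matrix.diagonal]
  · show coeff (mono n k) (monomial (Finsupp.single 1 (n + 2)) γ + monomial 0 κ : Poly) = _
    rw [coeff_add, coeff_mono, coeff_mono]
    fin_cases k <;> simp [Matrix.diagonal]

theorem det_matA_witness (n i : ℕ) : eval (coord (witness n)) (matA n i).det ≠ 0 := by
  rw [RingHom.map_det]
  have hM : (eval (coord (witness n))).mapMatrix (matA n i) =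
      Matrix.diagonal ![-((n : ℂ) + 2), -((n : ℂ) + 2) * (2 + i), 2 * (1 + i)] := by
    ext k l
    rw [RingHom.mapMatrix_apply, Matrix.map_apply, eval_matA, witness_colA, coeff_matrix]
  rw [hM, Matrix.det_diagonal, Fin.prod_univ_three]
  have h1 : ((n : ℂ) + 2) ≠ 0 := by exact_mod_cast (Nat.succ_ne_zero (n + 1))
  have h2 : (2 + (i : ℂ)) ≠ 0 := by
    have : ((2 + i : ℕ) : ℂ) ≠ 0 := Nat.cast_ne_zero.mpr (by omega)
    push_cast at this; exact this
  have h3 : (1 + (i : ℂ)) ≠ 0 := by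
    have : ((1 + i : ℕ) : ℂ) ≠ 0 := Nat.cast_ne_zero.mpr (by omega)
    push_cast at this; exact this
  exact mul_ne_zero (mul_ne_zero (neg_ne_zero.mpr h1) (mul_ne_zero (neg_ne_zero.mpr h1) h2))
    (mul_ne_zero two_ne_zero h3)

theorem det_matB_witness (n : ℕ) : eval (coord (witness n)) (matB n).det ≠ 0 := by
  rw [RingHom.map_det]
  have hM : (eval (coord (witness n))).mapMatrix (matB n) =
      Matrix.diagonal ![-((n : ℂ) + 2), (n : ℂ) + 2, -2] := by
    ext k l
    rw [RingHom.mapMatrix_apply, Matrix.map_apply, eval_matB, witness_colB, coeff_matrix]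
  rw [hM, Matrix.det_diagonal, Fin.prod_univ_three]
  have h1 : ((n : ℂ) + 2) ≠ 0 := by exact_mod_cast (Nat.succ_ne_zero (n + 1))
  exact mul_ne_zero (mul_ne_zero (neg_ne_zero.mpr h1) h1) (neg_ne_zero.mpr two_ne_zero)

theorem witness_degrees (n : ℕ) (j : Fin 2) :
    ((![X 0, X 1 ^ (n + 2) + 1] : Fin 2 → Poly) j).totalDegree ≤ (![1, n + 2] : Fin 2 → ℕ) j := by
  fin_cases j
  · show (X 0 : Poly).totalDegree ≤ 1
    simp
  · show (X 1 ^ (n + 2) + 1 : Poly).totalDegree ≤ n + 2
    refine (totalDegree_add _ _).trans (max_le ?_ ?_)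
    · simp
    · simp

theorem witness_mem_forms (n : ℕ) : witness n ∈ forms (n + 2) :=
  logForm_mem_forms _ _ ![1, n + 2] (witness_degrees n) (by
    rw [Fin.sum_univ_two]
    show 1 + (n + 2) ≤ n + 2 + 1
    omega)

theorem witness_ne_zero (n : ℕ) : witness n ≠ 0 := by
  intro h
  have h1 := witness_curl n
  rw [h] at h1
  have h2 : (monomial (Finsupp.single 1 (n + 1)) (-((n : ℂ) + 2)) : Poly) = 0 := by
    rw [← h1]; simp
  rw [monomial_eq_zero, neg_eq_zero] at h2
  exact absurd h2 (by exact_mod_cast (Nat.succ_ne_zero (n + 1)))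

theorem ssubset_of_det (n : ℕ) (Z : Set (Fol (n + 2))) (M : Matrix (Fin 3) (Fin 3) PolyFun)
    (hM : ∀ k l, (M k l).IsHomogeneous 1)
    (hsub : zariskiClosure Z ⊆ zariskiClosure (logFamily (n + 2) ![1, n + 2]))
    (hZ : ∀ x ∈ Z, x ∈ zeroLocus (n + 2) {M.det})
    (hw : eval (coord (witness n)) M.det ≠ 0) :
    zariskiClosure Z ⊂ zariskiClosure (logFamily (n + 2) ![1, n + 2]) := by
  have hS : ∀ Φ ∈ ({M.det} : Set PolyFun), ∃ m : ℕ, Φ.IsHomogeneous m := by
    intro Φ hΦ
    rw [Set.mem_singleton_iff.mp hΦ]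
    exact ⟨3, det_hom M hM⟩
  refine ⟨hsub, fun hsub' => ?_⟩
  have h1 : zariskiClosure Z ⊆ zeroLocus (n + 2) {M.det} :=
    zariskiClosure_subset ⟨{M.det}, hS, rfl⟩ hZ
  have hne : (⟨witness n, witness_mem_forms n⟩ : forms (n + 2)) ≠ 0 := by
    intro h
    exact witness_ne_zero n (congrArg Subtype.val h)
  have h2 : Projectivization.mk ℂ (⟨witness n, witness_mem_forms n⟩ : forms (n + 2)) hne ∈
      logFamily (n + 2) ![1, n + 2] :=
    ⟨![X 0, X 1 ^ (n + 2) + 1], ![2, 1], witness_degrees n, _, hne, rfl, rfl⟩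
  have h3 := h1 (hsub' (subset_zariskiClosure _ h2))
  rw [mk_mem_zeroLocus _ hS] at h3
  exact hw (h3 _ rfl)

theorem closure_familyA_ssubset (d i : ℕ) (hd : 2 ≤ d) (hi : i ≤ d) :
    zariskiClosure (familyA d i) ⊂ zariskiClosure (logFamily d ![1, d]) := by
  obtain ⟨n, rfl⟩ : ∃ n, d = n + 2 := ⟨d - 2, by omega⟩
  exact ssubset_of_det n _ (matA n i) (matA_hom n i) (closure_familyA_subset _ i hi)
    (det_matA_familyA n i) (det_matA_witness n i)

theorem closure_familyB_ssubset (d : ℕ) (hd : 2 ≤ d) :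
    zariskiClosure (familyB d) ⊂ zariskiClosure (logFamily d ![1, d]) := by
  obtain ⟨n, rfl⟩ : ∃ n, d = n + 2 := ⟨d - 2, by omega⟩
  exact ssubset_of_det n _ (matB n) (matB_hom n) (closure_familyB_subset _)
    (det_matB_familyB n) (det_matB_witness n)

theorem not_isComponent_of_ssubset {d : ℕ} {M Z L : Set (Fol d)} (hL : IsComponent M L)
    (hZ : Z ⊂ L) : ¬ IsComponent M Z := by
  intro h
  have := h.2.2 L hL.2.1 hZ.1 hL.1
  exact hZ.2 this.le

/-- **Main result.**  Let `d ≥ 2`.
(1) Every exponential family is contained in the Zariski closure of the logarithmic family with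
the same degrees: foliations with first integral `f₁^{λ₁} ⋯ f_s^{λ_s} exp(g / F)` lie in the
closure of `L(d₁, …, d_s, e)`.
(2) For `i ≤ d` the closure of the family `A_i` is strictly smaller than that of `L(1, d)`.
(3) The closure of the family `B_1` is strictly smaller than that of `L(1, d)`.
(4) In every set `M` of which the closure of `L(1, d)` is an irreducible component, for instance
in the center locus `M(d)`, no family `A_i` and not the family `B_1` gives an irreducible
component. -/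
theorem result (d : ℕ) (hd : 2 ≤ d) :
    (∀ (s : ℕ) (D : Fin s → ℕ) (e : ℕ), ∑ j, D j + e = d + 1 →
      expFamily d D e ⊆ zariskiClosure (logFamily d (Fin.snoc (α := fun _ => ℕ) D e))) ∧
    (∀ i ≤ d, zariskiClosure (familyA d i) ⊂ zariskiClosure (logFamily d ![1, d])) ∧
    zariskiClosure (familyB d) ⊂ zariskiClosure (logFamily d ![1, d]) ∧
    ∀ M : Set (Fol d), IsComponent M (zariskiClosure (logFamily d ![1, d])) →
      (∀ i ≤ d, ¬ IsComponent M (zariskiClosure (familyA d i))) ∧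
      ¬ IsComponent M (zariskiClosure (familyB d)) :=
  ⟨fun _ D e h => expFamily_subset d D e h,
    fun i hi => closure_familyA_ssubset d i hd hi,
    closure_familyB_ssubset d hd,
    fun _ hM => ⟨fun i hi => not_isComponent_of_ssubset hM (closure_familyA_ssubset d i hd hi),
      not_isComponent_of_ssubset hM (closure_familyB_ssubset d hd)⟩⟩

end Pool.Agent.Results.MP_05b4bd_ag.ExponentialFamilies
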