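import Pool.Agent.H898.CenterProofs

set_option autoImplicit false

open MvPolynomial Pool.Agent.H898.Center

namespace Pool.Agent.Results.MP_05b4bd_ag.ThroughHamiltonian

/-- **Main result.**  Let `d ≥ 2`.
(1) The exponential families lie in the closures of the logarithmic families with the same
degrees.
(2) If `M` is a Zariski closed set containing `L(1, d)` (for instance the center locus `M(d)`),
then no family `A_i`, `i ≤ d`, and not `B_1` gives an irreducible component of `M`.
(3) If `M` is Zariski closed, then for generic `f` of degree at most `d` every irreducible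
component of `M` containing `F(df)` contains all `F(dg)`, `deg g ≤ d`.
(4) If `d ≥ 7`, then a generic `f` satisfies the conditions of the problem, and the closure of
`L(d_1, …, d_s)`, `d_1 + ⋯ + d_s = d + 1`, contains `F(df)` if and only if some `d_j` is at
least `d`.
(5) If `d ≥ 7` and `M` is a Zariski closed set containing `L(d+1)` and `L(1, d)` (for instance
`M(d)`), then for generic `f` every irreducible component of `M` through `F(df)` which is the
closure of a logarithmic or exponential family, of some `A_i` or of `B_1`, is the closure of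
`L(d+1)` or of `L(1, d)`.
(6) If `d ≥ 3`, then there is an `f` satisfying the conditions of the problem such that `F(df)`
also lies in the closures of `L(2, d-1)` and `L(1, 1, d-1)`. -/
theorem result (d : ℕ) (hd : 2 ≤ d) :
    (∀ (s : ℕ) (D : Fin s → ℕ) (e : ℕ), ∑ j, D j + e = d + 1 →
      expFamily d D e ⊆ zariskiClosure (logFamily d (Fin.snoc (α := fun _ => ℕ) D e))) ∧
    (∀ M : Set (Fol d), IsAlgebraic M → logFamily d ![1, d] ⊆ M →
      (∀ i ≤ d, ¬ IsComponent M (zariskiClosure (familyA d i))) ∧
      ¬ IsComponent M (zariskiClosure (familyB d))) ∧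
    (∀ M : Set (Fol d), IsAlgebraic M → Generic d (fun f => ∀ Z, IsComponent M Z → Passes Z f →
      ∀ g : Poly, g.totalDegree ≤ d → g.totalDegree ≠ 0 → Passes Z g)) ∧
    (7 ≤ d → Generic d (fun f => AsInProblem d f ∧ ∀ (s : ℕ) (D : Fin s → ℕ), (∀ j, 1 ≤ D j) →
      ∑ j, D j = d + 1 → (Passes (zariskiClosure (logFamily d D)) f ↔ ∃ j, d ≤ D j))) ∧
    (7 ≤ d → ∀ M : Set (Fol d), IsAlgebraic M → logFamily d ![d + 1] ⊆ M →
      logFamily d ![1, d] ⊆ M → Generic d (fun f => AsInProblem d f ∧
        ∀ Z, Candidate d Z → IsComponent M Z → Passes Z f →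
          Z = zariskiClosure (logFamily d ![d + 1]) ∨ Z = zariskiClosure (logFamily d ![1, d]))) ∧
    (3 ≤ d → ∃ f : Poly, AsInProblem d f ∧
      Passes (zariskiClosure (logFamily d ![2, d - 1])) f ∧
      Passes (zariskiClosure (logFamily d ![1, 1, d - 1])) f) :=
  ⟨fun _ D e h => expFamily_subset d D e h,
    fun M hM h => not_component_AB d hd M hM h,
    fun M hM => (gen_components M hM).generic,
    fun h7 => (gen_iff d h7).generic,
    fun h7 M hM h1 h2 =>
      ((gen_asInProblem d (by omega)).and (gen_classification d h7 M hM h1 h2)).generic,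
    fun h3 => exists_special' d h3⟩

end Pool.Agent.Results.MP_05b4bd_ag.ThroughHamiltonian
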